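import Mathlib

/-!
# The factorial functional on polynomials with a dominant pure power (MP_410f3c_al, Q1, partial)

`f = c U_i ^ d + r`, `deg r ≤ d`, the exponent of `U_i` in the monomials of `r` is at most `d - 2`,
and the sum of the absolute values of the coefficients of `r` is less than `|c|`.
-/

set_option autoImplicit false

namespace Pool.Agent.Results.MP_410f3c_al.DominantPower

open MvPolynomial Finset

/-- the factorial functional -/
noncomputable def L {n : ℕ} (p : MvPolynomial (Fin n) ℂ) : ℂ :=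
  ∑ s ∈ p.support, MvPolynomial.coeff s p * ∏ i : Fin n, ((s i).factorial : ℂ)

/-- the factorial functional as a linear map -/
noncomputable def Ll (n : ℕ) : MvPolynomial (Fin n) ℂ →ₗ[ℂ] ℂ :=
  (basisMonomials (Fin n) ℂ).constr ℂ (fun s => ∏ i : Fin n, ((s i).factorial : ℂ))

lemma Ll_monomial {n : ℕ} (s : Fin n →₀ ℕ) :
    Ll n (monomial s 1) = ∏ i : Fin n, ((s i).factorial : ℂ) := by
  have h := (basisMonomials (Fin n) ℂ).constr_basis ℂ
    (fun s : Fin n →₀ ℕ => ∏ i : Fin n, ((s i).factorial : ℂ)) s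
  rw [coe_basisMonomials] at h
  exact h

lemma L_eq {n : ℕ} (p : MvPolynomial (Fin n) ℂ) : L p = Ll n p := by
  conv_rhs => rw [← support_sum_monomial_coeff p]
  rw [map_sum]
  unfold L
  refine Finset.sum_congr rfl fun s _ => ?_
  have : monomial s (coeff s p) = (coeff s p) • (monomial s (1 : ℂ)) := by
    rw [smul_monomial, smul_eq_mul, mul_one]
  rw [this, map_smul, Ll_monomial, smul_eq_mul]

lemma bd {n : ℕ} (r : MvPolynomial (Fin n) ℂ) (i0 : Fin n) (e : ℕ)
    (hr : ∀ s ∈ r.support, ∑ i, s i ≤ e + 2 ∧ s i0 ≤ e) :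
    ∀ (k : ℕ) (δ : Fin n →₀ ℕ) (B : ℝ),
      (∀ γ : Fin n →₀ ℕ, ∑ i, γ i ≤ k * (e + 2) → γ i0 ≤ k * e →
        ∏ i : Fin n, (((δ + γ) i).factorial : ℝ) ≤ B) →
      ‖Ll n (monomial δ 1 * r ^ k)‖ ≤ (∑ s ∈ r.support, ‖coeff s r‖) ^ k * B := by
  intro k
  induction k with
  | zero =>
    intro δ B hB
    rw [pow_zero, mul_one, Ll_monomial, pow_zero, one_mul]
    have := hB 0 (by simp) (by simp)
    rw [norm_prod]
    simpa using this
  | succ k ih =>
    intro δ B hB
    have h1 : monomial δ (1 : ℂ) * r ^ (k + 1) =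
        ∑ s ∈ r.support, (coeff s r) • (monomial (δ + s) (1 : ℂ) * r ^ k) := by
      rw [pow_succ']
      conv_lhs => rw [← mul_assoc]
      conv_lhs => enter [1, 2]; rw [← support_sum_monomial_coeff r]
      rw [Finset.mul_sum, Finset.sum_mul]
      refine Finset.sum_congr rfl fun s _ => ?_
      rw [monomial_mul, one_mul, ← smul_mul_assoc, smul_monomial, smul_eq_mul, mul_one]
    rw [h1, map_sum]
    refine (norm_sum_le _ _).trans ?_
    rw [pow_succ', mul_assoc, Finset.sum_mul]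
    refine Finset.sum_le_sum fun s hs => ?_
    rw [map_smul, norm_smul]
    refine mul_le_mul_of_nonneg_left ?_ (norm_nonneg _)
    refine ih (δ + s) B fun γ hγ hγ0 => ?_
    have h2 := hB (s + γ) (by
      simp only [Finsupp.add_apply, Finset.sum_add_distrib]
      have := (hr s hs).1
      nlinarith) (by
      simp only [Finsupp.add_apply]
      have := (hr s hs).2
      nlinarith)
    rw [← add_assoc] at h2
    exact h2

lemma choose_mul_le (a b c d : ℕ) : a.choose c * b.choose d ≤ (a + b).choose (c + d) := by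
  rw [Nat.add_choose_eq]
  refine Finset.single_le_sum (f := fun ij : ℕ × ℕ => a.choose ij.1 * b.choose ij.2)
    (a := (c, d)) (fun _ _ => Nat.zero_le _) ?_
  simp

lemma choose_sq (m k e s : ℕ) (hk : k ≤ m) (h1 : 2 * k ≤ s) (h2 : s ≤ k * (e + 2)) :
    m.choose k * m.choose k ≤ (m * (e + 2)).choose s := by
  obtain ⟨t, rfl⟩ : ∃ t, s = k + k + t := ⟨s - 2 * k, by omega⟩
  have h3 : m * (e + 2) = m + m + m * e := by ring
  have h4 : t ≤ m * e := by
    have : k * e ≤ m * e := Nat.mul_le_mul_right e hk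
    nlinarith
  rw [h3]
  calc m.choose k * m.choose k ≤ (m + m).choose (k + k) := choose_mul_le m m k k
    _ = (m + m).choose (k + k) * 1 := (mul_one _).symm
    _ ≤ (m + m).choose (k + k) * (m * e).choose t :=
        Nat.mul_le_mul_left _ (Nat.choose_pos h4)
    _ ≤ _ := choose_mul_le _ _ _ _

lemma fac2 {n : ℕ} (i0 : Fin n) (γ : Fin n →₀ ℕ) (m k e : ℕ) (hk : k ≤ m)
    (hγ : ∑ i, γ i ≤ k * (e + 2)) (hγ0 : γ i0 ≤ k * e) :
    (∏ i : Fin n, (((m - k) • Finsupp.single i0 (e + 2) + γ) i).factorial) *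
      (m.choose k * m.choose k) ≤ (m * (e + 2)).factorial := by
  have h1 : ∏ i : Fin n, (((m - k) • Finsupp.single i0 (e + 2) + γ) i).factorial =
      ((m - k) * (e + 2) + γ i0).factorial * ∏ i ∈ Finset.univ.erase i0, (γ i).factorial := by
    rw [← Finset.mul_prod_erase Finset.univ _ (Finset.mem_univ i0)]
    congr 1
    · simp
      congr 1
      ring
    · refine Finset.prod_congr rfl fun i hi => ?_
      have : i0 ≠ i := (Finset.ne_of_mem_erase hi).symm
      simp [this]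
  have h2 : ∏ i ∈ Finset.univ.erase i0, (γ i).factorial ≤
      (∑ i ∈ Finset.univ.erase i0, γ i).factorial :=
    Nat.le_of_dvd (Nat.factorial_pos _) (Nat.prod_factorial_dvd_factorial_sum _ _)
  have h3 : γ i0 + ∑ i ∈ Finset.univ.erase i0, γ i = ∑ i, γ i :=
    Finset.add_sum_erase Finset.univ (fun i => γ i) (Finset.mem_univ i0)
  set s := k * (e + 2) - γ i0 with hs
  have h4 : (∑ i ∈ Finset.univ.erase i0, γ i).factorial ≤ s.factorial :=
    Nat.factorial_le (by omega)
  have hke : k * (e + 2) = k * e + 2 * k := by ring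
  have h5 := choose_sq m k e s hk (by omega) (by omega)
  have hmk : (m - k) * (e + 2) + k * (e + 2) = m * (e + 2) := by
    rw [← Nat.add_mul]; congr 1; omega
  have h6 : s ≤ m * (e + 2) := by omega
  have h7 := Nat.choose_mul_factorial_mul_factorial h6
  have h8 : m * (e + 2) - s = (m - k) * (e + 2) + γ i0 := by omega
  rw [h8] at h7
  rw [h1]
  calc _ ≤ ((m - k) * (e + 2) + γ i0).factorial * s.factorial * ((m * (e + 2)).choose s) :=
        Nat.mul_le_mul (Nat.mul_le_mul_left _ (h2.trans h4)) h5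
    _ = (m * (e + 2)).factorial := by rw [← h7]; ring

lemma le_choose : ∀ m j : ℕ, 1 ≤ j → j < m → m ≤ m.choose j := by
  intro m
  induction m with
  | zero => intro j _ h; omega
  | succ m ih =>
    intro j h1 h2
    obtain ⟨i, rfl⟩ : ∃ i, j = i + 1 := ⟨j - 1, by omega⟩
    rw [Nat.choose_succ_succ']
    have h3 : 1 ≤ m.choose i := Nat.choose_pos (by omega)
    rcases Nat.lt_or_ge (i + 1) m with h | h
    · have := ih (i + 1) (by omega) h
      omega
    · have h4 : m = i + 1 := by omega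
      subst h4
      rw [Nat.choose_succ_self_right, Nat.choose_self]

open Filter Topology

/-- If `f = c U_i ^ d + r` with `d ≥ 2`, where every monomial of `r` has total degree at most `d`
and its exponent of `U_i` is at most `d - 2`, and if the sum of the absolute values of the
coefficients of `r` is less than `|c|`, then `L (f ^ m) ≠ 0` for all large `m`. -/
theorem result {n : ℕ} (i0 : Fin n) (d : ℕ) (hd : 2 ≤ d) (c : ℂ) (r : MvPolynomial (Fin n) ℂ)
    (hr : ∀ s ∈ r.support, ∑ i, s i ≤ d ∧ s i0 + 2 ≤ d)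
    (hc : ∑ s ∈ r.support, ‖coeff s r‖ < ‖c‖) :
    ∃ N : ℕ, ∀ m : ℕ, N ≤ m → L ((monomial (Finsupp.single i0 d) c + r) ^ m) ≠ 0 := by
  obtain ⟨e, rfl⟩ : ∃ e, d = e + 2 := ⟨d - 2, by omega⟩
  have hr' : ∀ s ∈ r.support, ∑ i, s i ≤ e + 2 ∧ s i0 ≤ e := fun s hs =>
    ⟨(hr s hs).1, by have := (hr s hs).2; omega⟩
  set R : ℝ := ∑ s ∈ r.support, ‖coeff s r‖ with hR
  have hR0 : 0 ≤ R := Finset.sum_nonneg fun _ _ => norm_nonneg _
  have hcn : 0 < ‖c‖ := lt_of_le_of_lt hR0 hc
  set ρ : ℝ := R / ‖c‖ with hρ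
  have hρ0 : 0 ≤ ρ := by positivity
  have hρ1 : ρ < 1 := (div_lt_one hcn).2 hc
  have hS : Tendsto (fun m : ℕ => (1 - ρ)⁻¹ * ((m : ℝ))⁻¹ + ρ ^ m) atTop (𝓝 ((1 - ρ)⁻¹ * 0 + 0)) :=
    (tendsto_const_nhds.mul tendsto_inv_atTop_nhds_zero_nat).add
      (tendsto_pow_atTop_nhds_zero_of_lt_one hρ0 hρ1)
  rw [mul_zero, add_zero] at hS
  obtain ⟨N, hN⟩ := eventually_atTop.1 ((hS.eventually (gt_mem_nhds one_pos)).and
    (eventually_ge_atTop 1))
  refine ⟨N, fun m hm => ?_⟩
  obtain ⟨hsm, hm1⟩ := hN m hm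
  have hmR : (0 : ℝ) < m := by exact_mod_cast hm1
  rw [L_eq, add_comm, add_pow, map_sum, Finset.sum_range_succ']
  set F : ℝ := ((m * (e + 2)).factorial : ℝ) with hF
  have hF0 : 0 < F := by positivity
  have hmon : ∀ j, (monomial (Finsupp.single i0 (e + 2)) c) ^ j =
      (c ^ j) • monomial (j • Finsupp.single i0 (e + 2)) (1 : ℂ) := by
    intro j
    rw [monomial_pow, smul_monomial, smul_eq_mul, mul_one]
  have hterm : ∀ k, k ≤ m → ‖Ll n (r ^ k * (monomial (Finsupp.single i0 (e + 2)) c) ^ (m - k) *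
      ((m.choose k : ℕ) : MvPolynomial (Fin n) ℂ))‖ ≤
      ρ ^ k / (m.choose k : ℝ) * (‖c‖ ^ m * F) := by
    intro k hk
    have hch : (0 : ℝ) < (m.choose k : ℝ) := by exact_mod_cast Nat.choose_pos hk
    have h1 : r ^ k * (monomial (Finsupp.single i0 (e + 2)) c) ^ (m - k) *
        ((m.choose k : ℕ) : MvPolynomial (Fin n) ℂ) =
        ((m.choose k : ℂ) * c ^ (m - k)) •
          (monomial ((m - k) • Finsupp.single i0 (e + 2)) (1 : ℂ) * r ^ k) := by
      rw [hmon, ← map_natCast (C : ℂ →+* MvPolynomial (Fin n) ℂ), mul_smul, ← C_mul', C_mul']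
      rw [smul_eq_C_mul, smul_eq_C_mul, smul_eq_C_mul]
      ring
    rw [h1, map_smul, norm_smul, norm_mul, norm_pow]
    have h2 := bd r i0 e hr' k ((m - k) • Finsupp.single i0 (e + 2))
      (F / ((m.choose k : ℝ) * (m.choose k : ℝ))) (fun γ hγ hγ0 => by
        rw [le_div_iff₀ (by positivity)]
        have := fac2 i0 γ m k e hk hγ hγ0
        rw [hF]
        exact_mod_cast this)
    have h3 : ‖((m.choose k : ℕ) : ℂ)‖ = (m.choose k : ℝ) := by simp
    rw [h3]
    refine (mul_le_mul_of_nonneg_left h2 (by positivity)).trans (le_of_eq ?_)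
    rw [← hR, hρ]
    have h4 : ‖c‖ ^ m = ‖c‖ ^ (m - k) * ‖c‖ ^ k := by rw [← pow_add]; congr 1; omega
    rw [h4, div_pow]
    have h5 : ‖c‖ ^ k ≠ 0 := by positivity
    field_simp
  have hfirst : Ll n (r ^ 0 * (monomial (Finsupp.single i0 (e + 2)) c) ^ (m - 0) *
      ((m.choose 0 : ℕ) : MvPolynomial (Fin n) ℂ)) = c ^ m * ((F : ℝ) : ℂ) := by
    rw [pow_zero, one_mul, Nat.sub_zero, Nat.choose_zero_right, Nat.cast_one, mul_one, hmon,
      map_smul, Ll_monomial, smul_eq_mul, hF]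
    congr 1
    rw [← Finset.mul_prod_erase Finset.univ _ (Finset.mem_univ i0)]
    rw [Finset.prod_eq_one (fun i hi => by
      have : i0 ≠ i := (Finset.ne_of_mem_erase hi).symm
      simp [this])]
    rw [mul_one, Finsupp.smul_apply, Finsupp.single_eq_same, smul_eq_mul]
    norm_cast
  rw [hfirst]
  intro hzero
  have h1 : ‖c ^ m * ((F : ℝ) : ℂ)‖ = ‖c‖ ^ m * F := by
    rw [norm_mul, norm_pow, Complex.norm_real, Real.norm_of_nonneg hF0.le]
  have h2 : ‖c ^ m * ((F : ℝ) : ℂ)‖ ≤ ∑ k ∈ range m, ρ ^ (k + 1) / (m.choose (k + 1) : ℝ) *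
      (‖c‖ ^ m * F) := by
    rw [eq_neg_of_add_eq_zero_right hzero, norm_neg]
    refine (norm_sum_le _ _).trans (Finset.sum_le_sum fun k hk => ?_)
    exact hterm (k + 1) (by have := Finset.mem_range.1 hk; omega)
  rw [h1, ← Finset.sum_mul] at h2
  have hP : 0 < ‖c‖ ^ m * F := by positivity
  have h3 : 1 ≤ ∑ k ∈ range m, ρ ^ (k + 1) / (m.choose (k + 1) : ℝ) := by
    by_contra h
    push Not at h
    nlinarith
  have h4 : ∑ k ∈ range m, ρ ^ (k + 1) / (m.choose (k + 1) : ℝ) ≤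
      ∑ k ∈ range m, (ρ ^ k * ((m : ℝ))⁻¹ + if k = m - 1 then ρ ^ m else 0) := by
    refine Finset.sum_le_sum fun k hk => ?_
    have hk' := Finset.mem_range.1 hk
    by_cases h : k = m - 1
    · rw [if_pos h]
      have e1 : k + 1 = m := by omega
      rw [e1, Nat.choose_self, Nat.cast_one, div_one]
      have : 0 ≤ ρ ^ k * ((m : ℝ))⁻¹ := by positivity
      linarith
    · rw [if_neg h, add_zero]
      have e1 : (m : ℝ) ≤ (m.choose (k + 1) : ℝ) := by
        exact_mod_cast le_choose m (k + 1) (by omega) (by omega)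
      rw [← div_eq_mul_inv]
      have e2 : ρ ^ (k + 1) ≤ ρ ^ k := pow_le_pow_of_le_one hρ0 hρ1.le (by omega)
      exact div_le_div₀ (by positivity) e2 hmR e1
  rw [Finset.sum_add_distrib, ← Finset.sum_mul, Finset.sum_ite_eq' (range m) (m - 1),
    if_pos (Finset.mem_range.2 (by omega))] at h4
  have h5 : ∑ k ∈ range m, ρ ^ k ≤ (1 - ρ)⁻¹ := by
    rw [← tsum_geometric_of_lt_one hρ0 hρ1]
    exact (summable_geometric_of_lt_one hρ0 hρ1).sum_le_tsum _ (fun _ _ => by positivity)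
  have h6 : (∑ k ∈ range m, ρ ^ k) * ((m : ℝ))⁻¹ ≤ (1 - ρ)⁻¹ * ((m : ℝ))⁻¹ :=
    mul_le_mul_of_nonneg_right h5 (by positivity)
  linarith

end Pool.Agent.Results.MP_410f3c_al.DominantPower
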