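import Mathlib

/-!
# The factorial functional on polynomials whose leading form is a monomial (MP_410f3c_al, Q1, partial)

If `f = c M + r` with `c ≠ 0`, `M` a monomial of total degree `D + 1 ≥ 1` and `r` of total degree at
most `D`, then `L (f ^ m) / (c ^ m L (M ^ m))` tends to `exp (r_D (a) / (c M (a))) ≠ 0`, `a` being the
exponent of `M` and `r_D` the part of `r` of degree `D`, so `L (f ^ m) ≠ 0` for all large `m`.
The estimates of the factorials are those of helper85 (`DominantMonomial`).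
-/

set_option autoImplicit false

namespace Pool.Agent.Results.MP_410f3c_al.LeadingMonomial

open MvPolynomial Finset

/-- the factorial functional -/
noncomputable def L {n : ℕ} (p : MvPolynomial (Fin n) ℂ) : ℂ :=
  ∑ s ∈ p.support, MvPolynomial.coeff s p * ∏ i : Fin n, ((s i).factorial : ℂ)

/-- the factorial functional as a linear map -/
noncomputable def Ll (n : ℕ) : MvPolynomial (Fin n) ℂ →ₗ[ℂ] ℂ :=
  (basisMonomials (Fin n) ℂ).constr ℂ (fun s => ∏ i : Fin n, ((s i).factorial : ℂ))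

lemma Ll_monomial {n : ℕ} (s : Fin n →₀ ℕ) :
    Ll n (monomial s 1) = ∏ i : Fin n, ((s i).factorial : ℂ) := by
  have h := (basisMonomials (Fin n) ℂ).constr_basis ℂ
    (fun s : Fin n →₀ ℕ => ∏ i : Fin n, ((s i).factorial : ℂ)) s
  rw [coe_basisMonomials] at h
  exact h

lemma L_eq {n : ℕ} (p : MvPolynomial (Fin n) ℂ) : L p = Ll n p := by
  conv_rhs => rw [← support_sum_monomial_coeff p]
  rw [map_sum]
  unfold L
  refine Finset.sum_congr rfl fun s _ => ?_
  have : monomial s (coeff s p) = (coeff s p) • (monomial s (1 : ℂ)) := by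
    rw [smul_monomial, smul_eq_mul, mul_one]
  rw [this, map_smul, Ll_monomial, smul_eq_mul]

lemma pow_le_three (M j : ℕ) (hj : j ≤ M) : (M + 1) ^ j ≤ 3 * M ^ j := by
  rcases Nat.eq_zero_or_pos M with h | h
  · subst h
    have : j = 0 := by omega
    subst this; norm_num
  have hM : (0 : ℝ) < M := by exact_mod_cast h
  have h1 : ((M : ℝ) + 1) ^ j ≤ 3 * (M : ℝ) ^ j := by
    have h2 : (1 + 1 / (M : ℝ)) ≤ Real.exp (1 / M) := by
      have := Real.add_one_le_exp (1 / (M : ℝ)); linarith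
    have h3 : (1 + 1 / (M : ℝ)) ^ j ≤ Real.exp 1 := by
      calc (1 + 1 / (M : ℝ)) ^ j ≤ (Real.exp (1 / M)) ^ j :=
            pow_le_pow_left₀ (by positivity) h2 j
        _ = Real.exp (j * (1 / M)) := by rw [← Real.exp_nat_mul]
        _ ≤ Real.exp 1 := by
            apply Real.exp_le_exp.2
            have : (j : ℝ) ≤ M := by exact_mod_cast hj
            rw [mul_one_div, div_le_one hM]; exact this
    have h4 : Real.exp 1 ≤ 3 := by have := Real.exp_one_lt_d9; linarith
    have h5 : ((M : ℝ) + 1) ^ j = (1 + 1 / (M : ℝ)) ^ j * (M : ℝ) ^ j := by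
      rw [← mul_pow]; congr 1; field_simp
    rw [h5]
    exact mul_le_mul_of_nonneg_right (h3.trans h4) (by positivity)
  exact_mod_cast h1

lemma key1 (M : ℕ) : ∀ s ≤ M, M ^ s * (M - s).factorial ≤ 3 ^ s * M.factorial := by
  induction M with
  | zero => intro s hs; have : s = 0 := by omega
            subst this; simp
  | succ M ih =>
    intro s hs
    rcases Nat.eq_zero_or_pos s with h | h
    · subst h; simp
    obtain ⟨j, rfl⟩ : ∃ j, s = j + 1 := ⟨s - 1, by omega⟩
    have h1 := ih j (by omega)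
    have h2 := pow_le_three M j (by omega)
    have e1 : M + 1 - (j + 1) = M - j := by omega
    rw [e1, Nat.factorial_succ, pow_succ, pow_succ]
    rcases Nat.eq_zero_or_pos M with h0 | h0
    · subst h0
      have : j = 0 := by omega
      subst this; simp
    calc (M + 1) ^ j * (M + 1) * (M - j).factorial
        = (M + 1) * ((M + 1) ^ j * (M - j).factorial) := by ring
      _ ≤ (M + 1) * ((3 * M ^ j) * (M - j).factorial) := by gcongr
      _ = 3 * (M + 1) * (M ^ j * (M - j).factorial) := by ring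
      _ ≤ 3 * (M + 1) * (3 ^ j * M.factorial) := by gcongr
      _ = 3 ^ j * 3 * ((M + 1) * M.factorial) := by ring

lemma coord (m k a g C : ℕ) (hk : k ≤ m) (hm : 1 ≤ m) (hC : 3 ≤ C) (hC2 : m * a + g ≤ C * m) :
    ((m - k) * a + g).factorial * m ^ (k * a) ≤ (m * a).factorial * m ^ g * C ^ (g + k * a) := by
  have hka : k * a ≤ m * a := Nat.mul_le_mul_right a hk
  have hsub : (m - k) * a = m * a - k * a := Nat.sub_mul m k a
  by_cases h : k * a ≤ g
  · obtain ⟨s, rfl⟩ : ∃ s, g = k * a + s := ⟨g - k * a, by omega⟩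
    have ht : (m - k) * a + (k * a + s) = m * a + s := by omega
    rw [ht, ← Nat.factorial_mul_ascFactorial]
    have h1 : (m * a + 1).ascFactorial s ≤ (m * a + s) ^ s := Nat.ascFactorial_le_pow_add _ _
    have h2 : (m * a + s) ^ s ≤ (C * m) ^ s := Nat.pow_le_pow_left (by omega) s
    calc (m * a).factorial * (m * a + 1).ascFactorial s * m ^ (k * a)
        ≤ (m * a).factorial * (C * m) ^ s * m ^ (k * a) := by
          gcongr; exact h1.trans h2
      _ = (m * a).factorial * m ^ (k * a + s) * C ^ s := by rw [mul_pow, pow_add]; ring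
      _ ≤ (m * a).factorial * m ^ (k * a + s) * C ^ (k * a + s + k * a) := by
          gcongr
          · omega
          · omega
  · push Not at h
    obtain ⟨s, hs⟩ : ∃ s, k * a = g + s := ⟨k * a - g, by omega⟩
    have ht : (m - k) * a + g = m * a - s := by omega
    have ha : 1 ≤ a := by
      rcases Nat.eq_zero_or_pos a with h0 | h0
      · subst h0; simp at h
      · exact h0
    have h1 := key1 (m * a) s (by omega)
    have h2 : m ^ s ≤ (m * a) ^ s := Nat.pow_le_pow_left (Nat.le_mul_of_pos_right m ha) s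
    rw [ht, hs]
    calc (m * a - s).factorial * m ^ (g + s)
        = m ^ s * (m * a - s).factorial * m ^ g := by rw [pow_add]; ring
      _ ≤ (m * a) ^ s * (m * a - s).factorial * m ^ g := by gcongr
      _ ≤ 3 ^ s * (m * a).factorial * m ^ g := by gcongr
      _ ≤ C ^ s * (m * a).factorial * m ^ g := by gcongr
      _ ≤ C ^ (g + (g + s)) * (m * a).factorial * m ^ g := by
          gcongr
          · omega
          · omega
      _ = (m * a).factorial * m ^ g * C ^ (g + (g + s)) := by ring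

lemma fac_bound {n : ℕ} (α γ : Fin n →₀ ℕ) (m k D : ℕ) (hD : ∑ i, α i = D + 1) (hk : k ≤ m)
    (hm : 1 ≤ m) (hγ : ∑ i, γ i ≤ k * D) :
    (∏ i : Fin n, ((((m - k) • α + γ) i).factorial : ℝ)) * (m : ℝ) ^ k ≤
      (∏ i : Fin n, (((m • α) i).factorial : ℝ)) * (((2 * D + 5 : ℕ) : ℝ) ^ (2 * (D + 1))) ^ k := by
  have h1 : ∀ i : Fin n, (((m - k) • α + γ) i).factorial * m ^ (k * α i) ≤
      ((m • α) i).factorial * m ^ (γ i) * (2 * D + 5) ^ (γ i + k * α i) := by
    intro i
    have hα : α i ≤ D + 1 := by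
      rw [← hD]; exact Finset.single_le_sum (f := fun i => α i) (fun _ _ => Nat.zero_le _)
        (Finset.mem_univ i)
    have hg : γ i ≤ m * D := by
      refine le_trans (Finset.single_le_sum (f := fun i => γ i) (fun _ _ => Nat.zero_le _)
        (Finset.mem_univ i)) (hγ.trans (Nat.mul_le_mul_right D hk))
    have := coord m k (α i) (γ i) (2 * D + 5) hk hm (by omega) (by nlinarith)
    simpa using this
  have h2 : (∏ i : Fin n, (((m - k) • α + γ) i).factorial) * m ^ (k * (D + 1)) ≤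
      (∏ i : Fin n, ((m • α) i).factorial) * m ^ (∑ i, γ i) *
        (2 * D + 5) ^ ((∑ i, γ i) + k * (D + 1)) := by
    have h3 := Finset.prod_le_prod' (s := (Finset.univ : Finset (Fin n))) (fun i _ => h1 i)
    rw [Finset.prod_mul_distrib, Finset.prod_mul_distrib, Finset.prod_mul_distrib,
      Finset.prod_pow_eq_pow_sum, Finset.prod_pow_eq_pow_sum, Finset.prod_pow_eq_pow_sum,
      Finset.sum_add_distrib, ← Finset.mul_sum, hD] at h3
    exact h3
  have h4 : (∏ i : Fin n, (((m - k) • α + γ) i).factorial) * m ^ k * m ^ (k * D) ≤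
      (∏ i : Fin n, ((m • α) i).factorial) * ((2 * D + 5) ^ (2 * (D + 1))) ^ k * m ^ (k * D) := by
    calc (∏ i : Fin n, (((m - k) • α + γ) i).factorial) * m ^ k * m ^ (k * D)
        = (∏ i : Fin n, (((m - k) • α + γ) i).factorial) * m ^ (k * (D + 1)) := by
          rw [mul_assoc, ← pow_add]; congr 2; ring
      _ ≤ (∏ i : Fin n, ((m • α) i).factorial) * m ^ (∑ i, γ i) *
        (2 * D + 5) ^ ((∑ i, γ i) + k * (D + 1)) := h2
      _ ≤ (∏ i : Fin n, ((m • α) i).factorial) * m ^ (k * D) *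
        (2 * D + 5) ^ (2 * (D + 1) * k) := by
          gcongr
          · omega
          · nlinarith
      _ = _ := by
          rw [pow_mul (2 * D + 5) (2 * (D + 1)) k]
          exact Nat.mul_right_comm _ _ _
  have h5 := Nat.le_of_mul_le_mul_right h4 (Nat.pow_pos (by omega))
  have h6 : (((∏ i : Fin n, (((m - k) • α + γ) i).factorial) * m ^ k : ℕ) : ℝ) ≤
      (((∏ i : Fin n, ((m • α) i).factorial) * ((2 * D + 5) ^ (2 * (D + 1))) ^ k : ℕ) : ℝ) := by
    exact_mod_cast h5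
  push_cast at h6 ⊢
  exact h6

lemma bd {n : ℕ} (r : MvPolynomial (Fin n) ℂ) (e : ℕ) (hr : ∀ s ∈ r.support, ∑ i, s i ≤ e) :
    ∀ (k : ℕ) (δ : Fin n →₀ ℕ) (B : ℝ),
      (∀ γ : Fin n →₀ ℕ, ∑ i, γ i ≤ k * e → ∏ i : Fin n, (((δ + γ) i).factorial : ℝ) ≤ B) →
      ‖Ll n (monomial δ 1 * r ^ k)‖ ≤ (∑ s ∈ r.support, ‖coeff s r‖) ^ k * B := by
  intro k
  induction k with
  | zero =>
    intro δ B hB
    rw [pow_zero, mul_one, Ll_monomial, pow_zero, one_mul]
    have := hB 0 (by simp)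
    rw [norm_prod]
    simpa using this
  | succ k ih =>
    intro δ B hB
    have h1 : monomial δ (1 : ℂ) * r ^ (k + 1) =
        ∑ s ∈ r.support, (coeff s r) • (monomial (δ + s) (1 : ℂ) * r ^ k) := by
      rw [pow_succ']
      conv_lhs => rw [← mul_assoc]
      conv_lhs => enter [1, 2]; rw [← support_sum_monomial_coeff r]
      rw [Finset.mul_sum, Finset.sum_mul]
      refine Finset.sum_congr rfl fun s _ => ?_
      rw [monomial_mul, one_mul, ← smul_mul_assoc, smul_monomial, smul_eq_mul, mul_one]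
    rw [h1, map_sum]
    refine (norm_sum_le _ _).trans ?_
    rw [pow_succ', mul_assoc, Finset.sum_mul]
    refine Finset.sum_le_sum fun s hs => ?_
    rw [map_smul, norm_smul]
    refine mul_le_mul_of_nonneg_left ?_ (norm_nonneg _)
    refine ih (δ + s) B fun γ hγ => ?_
    have h2 := hB (s + γ) (by
      simp only [Finsupp.add_apply, Finset.sum_add_distrib]
      have := hr s hs
      nlinarith)
    rw [← add_assoc] at h2
    exact h2

open Filter Topology

lemma lin_lim (a k t : ℕ) :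
    Tendsto (fun m : ℕ => (((m - k) * a + t : ℕ) : ℝ) / (m : ℝ)) atTop (𝓝 (a : ℝ)) := by
  have h1 : Tendsto (fun m : ℕ => (a : ℝ) + ((t : ℝ) - k * a) * ((m : ℝ))⁻¹) atTop
      (𝓝 ((a : ℝ) + ((t : ℝ) - k * a) * 0)) :=
    tendsto_const_nhds.add (tendsto_const_nhds.mul tendsto_inv_atTop_nhds_zero_nat)
  rw [mul_zero, add_zero] at h1
  refine h1.congr' ?_
  filter_upwards [eventually_ge_atTop (k + 1)] with m hm
  have hm0 : (m : ℝ) ≠ 0 := by
    have : m ≠ 0 := by omega
    exact_mod_cast this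
  push_cast [Nat.cast_sub (show k ≤ m by omega)]
  field_simp
  ring

lemma Q_lim (a k : ℕ) : ∀ j : ℕ,
    Tendsto (fun m : ℕ => ((((m - k) * a + j).factorial : ℕ) : ℝ) /
      ((((m - k) * a).factorial : ℕ) : ℝ) / (m : ℝ) ^ j) atTop (𝓝 ((a : ℝ) ^ j)) := by
  intro j
  induction j with
  | zero =>
    refine tendsto_const_nhds.congr fun m => ?_
    have : ((((m - k) * a).factorial : ℕ) : ℝ) ≠ 0 := by positivity
    simp [div_self this]
  | succ j ih =>
    have h := ih.mul (lin_lim a k (j + 1))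
    rw [← pow_succ] at h
    refine h.congr fun m => ?_
    rw [show (m - k) * a + (j + 1) = ((m - k) * a + j) + 1 by ring, Nat.factorial_succ, pow_succ]
    push_cast
    ring

lemma rho_lim (a k s : ℕ) :
    Tendsto (fun m : ℕ => ((((m - k) * a + s).factorial : ℕ) : ℝ) /
      (((m * a).factorial : ℕ) : ℝ) * ((m : ℝ) ^ (k * a) / (m : ℝ) ^ s)) atTop
      (𝓝 ((a : ℝ) ^ s / (a : ℝ) ^ (k * a))) := by
  have h0 : (a : ℝ) ^ (k * a) ≠ 0 := by
    rcases Nat.eq_zero_or_pos a with h | h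
    · subst h; simp
    · positivity
  have h := (Q_lim a k s).div (Q_lim a k (k * a)) h0
  refine h.congr' ?_
  filter_upwards [eventually_ge_atTop (k + 1)] with m hm
  have hm0 : (m : ℝ) ≠ 0 := by
    have : m ≠ 0 := by omega
    exact_mod_cast this
  have e : (m - k) * a + k * a = m * a := by
    rw [← Nat.add_mul]; congr 1; omega
  simp only [Pi.div_apply]
  rw [e]
  have h1 : ((((m - k) * a).factorial : ℕ) : ℝ) ≠ 0 := by positivity
  have h2 : (((m * a).factorial : ℕ) : ℝ) ≠ 0 := by positivity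
  field_simp

/-- the limit weight of an exponent -/
noncomputable def wt {n : ℕ} (α : Fin n →₀ ℕ) (k D : ℕ) (s : Fin n →₀ ℕ) : ℝ :=
  if ∑ i, s i = k * D then ∏ i, ((α i : ℝ) ^ (s i) / (α i : ℝ) ^ (k * α i)) else 0

lemma mon_lim {n : ℕ} (α s : Fin n →₀ ℕ) (k D : ℕ) (hD : ∑ i, α i = D + 1)
    (hs : ∑ i, s i ≤ k * D) :
    Tendsto (fun m : ℕ => (m : ℝ) ^ k * (∏ i : Fin n, ((((m - k) • α + s) i).factorial : ℝ)) /
      (∏ i : Fin n, (((m • α) i).factorial : ℝ))) atTop (𝓝 (wt α k D s)) := by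
  have h1 : Tendsto (fun m : ℕ => ∏ i : Fin n, (((((m - k) * α i + s i).factorial : ℕ) : ℝ) /
      (((m * α i).factorial : ℕ) : ℝ) * ((m : ℝ) ^ (k * α i) / (m : ℝ) ^ (s i)))) atTop
      (𝓝 (∏ i, ((α i : ℝ) ^ (s i) / (α i : ℝ) ^ (k * α i)))) :=
    tendsto_finsetProd _ fun i _ => rho_lim (α i) k (s i)
  obtain ⟨e, he⟩ : ∃ e, k * D = ∑ i, s i + e := ⟨k * D - ∑ i, s i, by omega⟩
  have h2 : Tendsto (fun m : ℕ => (((m : ℝ))⁻¹) ^ e) atTop (𝓝 ((0 : ℝ) ^ e)) :=
    tendsto_inv_atTop_nhds_zero_nat.pow e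
  have h3 := h1.mul h2
  have h4 : (∏ i, ((α i : ℝ) ^ (s i) / (α i : ℝ) ^ (k * α i))) * (0 : ℝ) ^ e = wt α k D s := by
    unfold wt
    by_cases h : e = 0
    · subst h
      rw [if_pos (by omega), pow_zero, mul_one]
    · rw [if_neg (by omega), zero_pow h, mul_zero]
  rw [h4] at h3
  refine h3.congr' ?_
  filter_upwards [eventually_ge_atTop 1] with m hm
  have hm0 : (m : ℝ) ≠ 0 := by
    have : m ≠ 0 := by omega
    exact_mod_cast this
  rw [Finset.prod_mul_distrib, Finset.prod_div_distrib, Finset.prod_div_distrib,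
    Finset.prod_pow_eq_pow_sum, Finset.prod_pow_eq_pow_sum, ← Finset.mul_sum, hD]
  have e1 : k * (D + 1) = k + (∑ i, s i + e) := by rw [← he]; ring
  rw [e1, pow_add, pow_add]
  have e2 : ∀ i, ((((m - k) • α + s) i).factorial : ℝ) =
      ((((m - k) * α i + s i).factorial : ℕ) : ℝ) := by intro i; simp
  have e3 : ∀ i, (((m • α) i).factorial : ℝ) = (((m * α i).factorial : ℕ) : ℝ) := by
    intro i; simp
  rw [Finset.prod_congr rfl fun i _ => e2 i, Finset.prod_congr rfl fun i _ => e3 i]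
  have h5 : (∏ i, (((m * α i).factorial : ℕ) : ℝ)) ≠ 0 :=
    (Finset.prod_pos fun i _ => by positivity).ne'
  rw [inv_pow]
  field_simp

/-- the value at `a = α` of a monomial of degree `e` -/
noncomputable def v {n : ℕ} (α : Fin n →₀ ℕ) (s : Fin n →₀ ℕ) (e : ℕ) : ℝ :=
  if ∑ i, s i = e then ∏ i, (α i : ℝ) ^ (s i) else 0

lemma wt_eq {n : ℕ} (α : Fin n →₀ ℕ) (k D : ℕ) (s : Fin n →₀ ℕ) :
    wt α k D s = v α s (k * D) / (∏ i, (α i : ℝ) ^ (α i)) ^ k := by
  unfold wt v
  split_ifs with h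
  · rw [Finset.prod_div_distrib, ← Finset.prod_pow]
    congr 1
    refine Finset.prod_congr rfl fun i _ => ?_
    rw [← pow_mul, mul_comm]
  · rw [zero_div]

lemma v_add {n : ℕ} (α s t : Fin n →₀ ℕ) (e D : ℕ) (hs : ∑ i, s i ≤ e * D) (ht : ∑ i, t i ≤ D) :
    v α (s + t) ((e + 1) * D) = v α s (e * D) * v α t D := by
  unfold v
  have h0 : ∑ i, (s + t) i = ∑ i, s i + ∑ i, t i := by
    simp only [Finsupp.add_apply, Finset.sum_add_distrib]
  have h1 : (e + 1) * D = e * D + D := by ring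
  rw [h0, h1]
  by_cases h2 : ∑ i, s i = e * D
  · by_cases h3 : ∑ i, t i = D
    · rw [if_pos (by omega), if_pos h2, if_pos h3, ← Finset.prod_mul_distrib]
      refine Finset.prod_congr rfl fun i _ => ?_
      rw [Finsupp.add_apply, pow_add]
    · rw [if_neg (by omega), if_neg h3, mul_zero]
  · rw [if_neg (by omega), if_neg h2, zero_mul]

lemma pol_lim {n : ℕ} (α : Fin n →₀ ℕ) (r : MvPolynomial (Fin n) ℂ) (D : ℕ)
    (hD : ∑ i, α i = D + 1) (hr : ∀ s ∈ r.support, ∑ i, s i ≤ D) :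
    ∀ (j e : ℕ) (s : Fin n →₀ ℕ), ∑ i, s i ≤ e * D →
      Tendsto (fun m : ℕ => (m : ℂ) ^ (e + j) * Ll n (monomial ((m - (e + j)) • α + s) 1 * r ^ j) /
        (((∏ i : Fin n, (((m • α) i).factorial : ℝ)) : ℝ) : ℂ)) atTop
        (𝓝 (((v α s (e * D) : ℝ) : ℂ) * (∑ t ∈ r.support, coeff t r * ((v α t D : ℝ) : ℂ)) ^ j /
          ((((∏ i, (α i : ℝ) ^ (α i)) ^ (e + j) : ℝ)) : ℂ))) := by
  intro j
  induction j with
  | zero =>
    intro e s hs
    have h1 := mon_lim α s e D hD hs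
    rw [wt_eq] at h1
    have h2 := (Complex.continuous_ofReal.tendsto _).comp h1
    have h3 : (((v α s (e * D) / (∏ i, (α i : ℝ) ^ (α i)) ^ e : ℝ)) : ℂ) =
        ((v α s (e * D) : ℝ) : ℂ) * (∑ t ∈ r.support, coeff t r * ((v α t D : ℝ) : ℂ)) ^ 0 /
          ((((∏ i, (α i : ℝ) ^ (α i)) ^ (e + 0) : ℝ)) : ℂ) := by
      rw [pow_zero, mul_one, add_zero]; push_cast; rfl
    rw [h3] at h2
    refine h2.congr fun m => ?_
    rw [pow_zero, mul_one, add_zero, Ll_monomial]
    simp only [Function.comp]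
    push_cast
    rfl
  | succ j ih =>
    intro e s hs
    have h1 : ∀ m : ℕ, (m : ℂ) ^ (e + (j + 1)) *
        Ll n (monomial ((m - (e + (j + 1))) • α + s) 1 * r ^ (j + 1)) /
        (((∏ i : Fin n, (((m • α) i).factorial : ℝ)) : ℝ) : ℂ) =
        ∑ t ∈ r.support, coeff t r * ((m : ℂ) ^ (e + 1 + j) *
          Ll n (monomial ((m - (e + 1 + j)) • α + (s + t)) 1 * r ^ j) /
        (((∏ i : Fin n, (((m • α) i).factorial : ℝ)) : ℝ) : ℂ)) := by
      intro m
      have e1 : e + (j + 1) = e + 1 + j := by ring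
      rw [e1]
      have h2 : monomial ((m - (e + 1 + j)) • α + s) (1 : ℂ) * r ^ (j + 1) =
          ∑ t ∈ r.support, (coeff t r) • (monomial ((m - (e + 1 + j)) • α + (s + t)) (1 : ℂ) *
            r ^ j) := by
        rw [pow_succ']
        conv_lhs => rw [← mul_assoc]
        conv_lhs => enter [1, 2]; rw [← support_sum_monomial_coeff r]
        rw [Finset.mul_sum, Finset.sum_mul]
        refine Finset.sum_congr rfl fun t _ => ?_
        rw [monomial_mul, one_mul, ← smul_mul_assoc, smul_monomial, smul_eq_mul, mul_one, add_assoc]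
      rw [h2, map_sum, Finset.mul_sum, Finset.sum_div]
      refine Finset.sum_congr rfl fun t _ => ?_
      rw [map_smul, smul_eq_mul]
      ring
    rw [tendsto_congr h1]
    have h3 : Tendsto (fun m : ℕ => ∑ t ∈ r.support, coeff t r * ((m : ℂ) ^ (e + 1 + j) *
          Ll n (monomial ((m - (e + 1 + j)) • α + (s + t)) 1 * r ^ j) /
        (((∏ i : Fin n, (((m • α) i).factorial : ℝ)) : ℝ) : ℂ))) atTop
        (𝓝 (∑ t ∈ r.support, coeff t r * (((v α (s + t) ((e + 1) * D) : ℝ) : ℂ) *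
          (∑ t ∈ r.support, coeff t r * ((v α t D : ℝ) : ℂ)) ^ j /
          ((((∏ i, (α i : ℝ) ^ (α i)) ^ (e + 1 + j) : ℝ)) : ℂ)))) := by
      refine tendsto_finsetSum _ fun t ht => tendsto_const_nhds.mul (ih (e + 1) (s + t) ?_)
      have := hr t ht
      simp only [Finsupp.add_apply, Finset.sum_add_distrib]
      nlinarith
    convert h3 using 2
    have e1 : e + (j + 1) = e + 1 + j := by ring
    rw [e1]
    have h4 : ∀ t ∈ r.support, coeff t r * (((v α (s + t) ((e + 1) * D) : ℝ) : ℂ) *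
          (∑ t ∈ r.support, coeff t r * ((v α t D : ℝ) : ℂ)) ^ j /
          ((((∏ i, (α i : ℝ) ^ (α i)) ^ (e + 1 + j) : ℝ)) : ℂ)) =
        (coeff t r * ((v α t D : ℝ) : ℂ)) * (((v α s (e * D) : ℝ) : ℂ) *
          (∑ t ∈ r.support, coeff t r * ((v α t D : ℝ) : ℂ)) ^ j /
          ((((∏ i, (α i : ℝ) ^ (α i)) ^ (e + 1 + j) : ℝ)) : ℂ)) := by
      intro t ht
      rw [v_add α s t e D hs (hr t ht)]
      push_cast
      ring
    rw [Finset.sum_congr rfl h4, ← Finset.sum_mul]
    ring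

lemma choose_lim (k : ℕ) :
    Tendsto (fun m : ℕ => ((m.choose k : ℕ) : ℝ) / (m : ℝ) ^ k) atTop (𝓝 (1 / (k.factorial : ℝ))) := by
  have h := (Q_lim 1 k k).div_const (k.factorial : ℝ)
  rw [Nat.cast_one, one_pow] at h
  refine h.congr' ?_
  filter_upwards [eventually_ge_atTop k] with m hm
  have h1 := Nat.choose_mul_factorial_mul_factorial hm
  have h2 : ((m.choose k : ℕ) : ℝ) * (k.factorial : ℝ) * ((m - k).factorial : ℝ) =
      (m.factorial : ℝ) := by exact_mod_cast h1
  rw [mul_one, Nat.sub_add_cancel hm, ← h2]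
  have h3 : ((m - k).factorial : ℝ) ≠ 0 := by positivity
  have h4 : (k.factorial : ℝ) ≠ 0 := by positivity
  field_simp

/-- If `f = c M + r` where `c ≠ 0`, `M` is a monomial of total degree at least `1` and every
monomial of `r` has total degree at most `deg M - 1`, then `L (f ^ m) ≠ 0` for all large `m`. -/
theorem result {n : ℕ} (α : Fin n →₀ ℕ) (c : ℂ) (hc : c ≠ 0) (r : MvPolynomial (Fin n) ℂ)
    (hα : 1 ≤ ∑ i, α i) (hr : ∀ s ∈ r.support, (∑ i, s i) + 1 ≤ ∑ i, α i) :
    ∃ N : ℕ, ∀ m : ℕ, N ≤ m → L ((monomial α c + r) ^ m) ≠ 0 := by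
  obtain ⟨D, hD⟩ : ∃ D, ∑ i, α i = D + 1 := ⟨(∑ i, α i) - 1, by omega⟩
  have hr' : ∀ s ∈ r.support, ∑ i, s i ≤ D := fun s hs => by have := hr s hs; omega
  set R : ℝ := ∑ s ∈ r.support, ‖coeff s r‖ with hR
  have hR0 : 0 ≤ R := Finset.sum_nonneg fun _ _ => norm_nonneg _
  set A : ℝ := ((2 * D + 5 : ℕ) : ℝ) ^ (2 * (D + 1)) with hA
  have hA0 : 0 ≤ A := by positivity
  have hcn : 0 < ‖c‖ := norm_pos_iff.2 hc
  set B : ℝ := R * A / ‖c‖ with hB
  have hB0 : 0 ≤ B := by positivity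
  set F : ℕ → ℝ := fun m => ∏ i : Fin n, (((m • α) i).factorial : ℝ) with hF
  have hF0 : ∀ m, 0 < F m := fun m => Finset.prod_pos fun i _ => by positivity
  set P : ℝ := ∏ i, (α i : ℝ) ^ (α i) with hP
  have hP0 : 0 < P := Finset.prod_pos fun i _ => by
    rcases Nat.eq_zero_or_pos (α i) with h | h
    · rw [h]; simp
    · positivity
  set Λ : ℂ := ∑ t ∈ r.support, coeff t r * ((v α t D : ℝ) : ℂ) with hΛ
  set T : ℕ → ℕ → ℂ := fun m k => (((((m.choose k : ℕ) : ℝ) / (m : ℝ) ^ k : ℝ)) : ℂ) * (c⁻¹) ^ k *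
    ((m : ℂ) ^ k * Ll n (monomial ((m - k) • α) 1 * r ^ k) / ((F m : ℝ) : ℂ)) with hT
  -- limits
  have hlim : ∀ k, Tendsto (fun m => T m k) atTop (𝓝 ((Λ / (c * P)) ^ k / (k.factorial : ℂ))) := by
    intro k
    have h1 := pol_lim α r D hD hr' k 0 0 (by simp)
    have h2 := (Complex.continuous_ofReal.tendsto _).comp (choose_lim k)
    have h3 := (h2.mul (tendsto_const_nhds (x := (c⁻¹) ^ k))).mul h1
    have h4 : ((1 / (k.factorial : ℝ) : ℝ) : ℂ) * (c⁻¹) ^ k * (((v α 0 (0 * D) : ℝ) : ℂ) *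
        (∑ t ∈ r.support, coeff t r * ((v α t D : ℝ) : ℂ)) ^ k /
          ((((∏ i, (α i : ℝ) ^ (α i)) ^ (0 + k) : ℝ)) : ℂ)) =
        (Λ / (c * P)) ^ k / (k.factorial : ℂ) := by
      have h5 : v α 0 (0 * D) = 1 := by unfold v; simp
      rw [h5, ← hΛ, ← hP, zero_add]
      push_cast
      rw [div_pow, mul_pow, inv_pow]
      have h6 : (k.factorial : ℂ) ≠ 0 := by exact_mod_cast k.factorial_ne_zero
      have h7 : ((P : ℝ) : ℂ) ≠ 0 := by exact_mod_cast hP0.ne'
      field_simp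
    rw [h4] at h3
    refine h3.congr fun m => ?_
    simp only [hT, hF, Function.comp, zero_add, add_zero]
  -- bounds
  have hbound : ∀ m, 1 ≤ m → ∀ k, ‖T m k‖ ≤ B ^ k / (k.factorial : ℝ) := by
    intro m hm k
    have hmR : (0 : ℝ) < m := by exact_mod_cast hm
    rcases Nat.lt_or_ge m k with hk | hk
    · have : T m k = 0 := by simp [hT, Nat.choose_eq_zero_of_lt hk]
      rw [this, norm_zero]
      positivity
    have h2 := bd r D hr' k ((m - k) • α)
      (F m * A ^ k / (m : ℝ) ^ k) (fun γ hγ => by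
        rw [le_div_iff₀ (by positivity)]
        exact fac_bound α γ m k D hD hk hm hγ)
    have h3 : ‖(m : ℂ) ^ k * Ll n (monomial ((m - k) • α) 1 * r ^ k) / ((F m : ℝ) : ℂ)‖ ≤
        (R * A) ^ k := by
      rw [norm_div, norm_mul, norm_pow, Complex.norm_natCast, Complex.norm_real,
        Real.norm_of_nonneg (hF0 m).le, div_le_iff₀ (hF0 m)]
      refine (mul_le_mul_of_nonneg_left h2 (by positivity)).trans (le_of_eq ?_)
      rw [← hR, mul_pow]
      field_simp
    have h4 : ‖((((m.choose k : ℕ) : ℝ) / (m : ℝ) ^ k : ℝ) : ℂ)‖ ≤ 1 / (k.factorial : ℝ) := by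
      rw [Complex.norm_real, Real.norm_of_nonneg (by positivity), div_le_iff₀ (by positivity)]
      have := Nat.choose_le_pow_div (α := ℝ) k m
      rw [one_div, inv_mul_eq_div]
      exact this
    simp only [hT]
    rw [norm_mul, norm_mul, norm_pow, norm_inv]
    calc _ ≤ 1 / (k.factorial : ℝ) * (‖c‖⁻¹) ^ k * (R * A) ^ k := by
          gcongr
      _ = B ^ k / (k.factorial : ℝ) := by
          rw [hB, div_pow, inv_pow]
          ring
  have hsum : Summable (fun k : ℕ => B ^ k / (k.factorial : ℝ)) := Real.summable_pow_div_factorial B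
  have htan := tendsto_tsum_of_dominated_convergence (𝓕 := atTop) (f := T) hsum hlim
    ((eventually_ge_atTop 1).mono fun m hm => hbound m hm)
  have hexp : (∑' k : ℕ, (Λ / (c * P)) ^ k / (k.factorial : ℂ)) = Complex.exp (Λ / (c * P)) := by
    rw [Complex.exp_eq_exp_ℂ, NormedSpace.exp_eq_tsum_div]
  rw [hexp] at htan
  have hne := htan.eventually_ne (Complex.exp_ne_zero _)
  obtain ⟨N, hN⟩ := eventually_atTop.1 (hne.and (eventually_ge_atTop 1))
  refine ⟨N, fun m hm hzero => ?_⟩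
  obtain ⟨h1, h2⟩ := hN m hm
  apply h1
  have hmC : (m : ℂ) ≠ 0 := by
    have : m ≠ 0 := by omega
    exact_mod_cast this
  have hFC : ((F m : ℝ) : ℂ) ≠ 0 := by exact_mod_cast (hF0 m).ne'
  rw [tsum_eq_sum (s := Finset.range (m + 1)) (fun k hk => by
    have : m < k := by
      have := mt Finset.mem_range.2 hk
      omega
    simp [hT, Nat.choose_eq_zero_of_lt this])]
  have h3 : ∑ k ∈ Finset.range (m + 1), T m k =
      (c ^ m)⁻¹ * (L ((monomial α c + r) ^ m) / ((F m : ℝ) : ℂ)) := by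
    rw [L_eq, add_comm (monomial α c), add_pow, map_sum, Finset.sum_div, Finset.mul_sum]
    refine Finset.sum_congr rfl fun k hk => ?_
    have hk' : k ≤ m := by have := Finset.mem_range.1 hk; omega
    have h4 : r ^ k * (monomial α c) ^ (m - k) * ((m.choose k : ℕ) : MvPolynomial (Fin n) ℂ) =
        ((m.choose k : ℂ) * c ^ (m - k)) • (monomial ((m - k) • α) (1 : ℂ) * r ^ k) := by
      have hmon : (monomial α c) ^ (m - k) = (c ^ (m - k)) • monomial ((m - k) • α) (1 : ℂ) := by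
        rw [monomial_pow, smul_monomial, smul_eq_mul, mul_one]
      rw [hmon, ← map_natCast (C : ℂ →+* MvPolynomial (Fin n) ℂ), mul_smul, ← C_mul', C_mul']
      rw [smul_eq_C_mul, smul_eq_C_mul, smul_eq_C_mul]
      ring
    rw [h4, map_smul, smul_eq_mul]
    simp only [hT]
    have h5 : c ^ m = c ^ (m - k) * c ^ k := by rw [← pow_add]; congr 1; omega
    rw [h5, inv_pow]
    push_cast
    have h6 : c ^ k ≠ 0 := pow_ne_zero _ hc
    have h7 : c ^ (m - k) ≠ 0 := pow_ne_zero _ hc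
    have h8 : (m : ℂ) ^ k ≠ 0 := pow_ne_zero _ hmC
    field_simp
  rw [h3, hzero, zero_div, mul_zero]

end Pool.Agent.Results.MP_410f3c_al.LeadingMonomial
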